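import Pool.Agent.K1H17.LW.Basic

/-! Covers of `W × ℙ¹ × ... × ℙ¹` with two types of branch points over each line: the lower bound
for the Kodaira dimension (merge of `K1H17/LP/Lw2` and `K1H17/SC/Low2`, both by helper17). -/

set_option autoImplicit false
set_option linter.overlappingInstances false
set_option linter.unusedSectionVars false
set_option linter.unusedVariables false

open FF IntermediateField Polynomial Pool.Agent.W619.PQ Pool.Agent.W619.PL Pool.Agent.W619.TW
  Pool.Agent.W603.LV Pool.Agent.W619.Y Pool.Agent.W672.PG Pool.Agent.W824.PG Pool.Agent.Y174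
  Pool.Agent.K1H17.IS Pool.Agent.K1H17.TP Pool.Agent.K1H17.LP Pool.Agent.K1H17.SC
  Pool.Agent.K1H17.LW

namespace Pool.Agent.K1H24.LW

theorem pow_ind {k L ι : Type} [Field k] [Field L] [Algebra k L] {g : ι → L}
    (h : AlgebraicIndependent k g) {N : ℕ} (hN : 0 < N) :
    AlgebraicIndependent k (fun l => g l ^ N) := by
  intro p q hpq
  apply MvPolynomial.expand_injective (n := N) hN
  apply h
  rw [MvPolynomial.aeval_expand, MvPolynomial.aeval_expand]
  exact hpq

section

variable {k : Type} [Field k] [CharZero k] [IsAlgClosed k] {L : Type} [Field L] [Algebra k L]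

/-- The factor of a line. -/
theorem fac_line2 {n : ℕ} (hn : Algebra.trdeg k L = n) {x : L} (hx : Transcendental k x)
    (f : Fin 2 → k[X]) (hf : ∀ c, f c ≠ 0) (hsq : Squarefree (f 0 * f 1)) {μ : ℕ}
    (e : Fin 2 → ℤ) (y : Fin 2 → ℝ) (he' : ∀ c, (e c : ℝ) = μ * y c - μ)
    (hyd : ∑ c, ((f c).natDegree : ℝ) * y c = ∑ c, ((f c).natDegree : ℝ) - 2) {w : Place k L}
    (hw : IsDivisorial w n) :
    ∃ (γ : ℝ) (d : Fin 2 → ℕ), (∀ c, (pdiv (lgen (k := k) x) (line_of hx).tr (f c)
          (hf c)).ev (fun y => w.ord (y : L)) = d c) ∧ (d 0 = 0 ∨ d 1 = 0) ∧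
        LG w μ (fun _ : Fin 1 => x)
          ((∏ c, (aeval (lgen (k := k) x) (f c) : ↥(adjoin k {x})) ^ e c : ↥(adjoin k {x})) : L) γ ∧
        ((∃ f : ↥(adjoin k {x}), w.ord (f : L) ≠ 0) → d = 0 → (μ : ℝ) ≤ γ) ∧
        (d = 0 → 0 ≤ γ) ∧ (μ * ∑ c, (d c : ℝ) * y c ≤ γ) := by
  classical
  have hX := line_of (k := k) hx
  by_cases hcon : ∃ f : ↥(adjoin k {x}), w.ord (algebraMap ↥(adjoin k {x}) L f) ≠ 0
  · obtain ⟨c0, u, hu⟩ := exists_over (K := ↥(adjoin k {x})) w hcon
    have hev : ∀ c, (pdiv (lgen (k := k) x) hX.tr (f c) (hf c)).ev (fun y => w.ord (y : L)) =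
        c0 * (pdiv (lgen (k := k) x) hX.tr (f c) (hf c)).ev u.ord := fun c =>
      (pdiv (lgen (k := k) x) hX.tr (f c) (hf c)).ev_scale (Int.natCast_nonneg c0) hu.2
    have hc0 : (1 : ℝ) ≤ c0 := by exact_mod_cast hu.1
    have hμ0 : (0 : ℝ) ≤ μ := Nat.cast_nonneg μ
    have hfrm := Pool.Agent.K1H33.LP.t_FRM k ↥(adjoin k {x}) (lgen (k := k) x) hX f e μ hsq
    obtain ⟨E, hE⟩ := Pool.Agent.W636.PG.exists_duals k ↥(adjoin k {x}) 1
      (fun _ => lgen (k := k) x) (line_basis hX)
    obtain ⟨F, hF⟩ : ∃ F : (Fin 1 → Derivation k ↥(adjoin k {x}) ↥(adjoin k {x})) →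
        ↥(adjoin k {x}), F = fun D => (∏ c, aeval (lgen (k := k) x) (f c) ^ e c) *
          (Matrix.of fun i' _ => D i' (lgen (k := k) x) :
            Matrix (Fin 1) (Fin 1) ↥(adjoin k {x})).det ^ μ :=
      ⟨_, rfl⟩
    have hFp : IsPluriForm k ↥(adjoin k {x}) 1 μ F := by
      rw [hF]
      exact pluri_det _ (fun _ => lgen (k := k) x)
    have hFE : F E = ∏ c, aeval (lgen (k := k) x) (f c) ^ e c := by
      rw [hF]
      have h5 : (Matrix.of fun i' _ => E i' (lgen (k := k) x) :
          Matrix (Fin 1) (Fin 1) ↥(adjoin k {x})) = 1 := by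
        refine Matrix.ext fun a b => ?_
        rw [Matrix.of_apply, Matrix.one_apply]
        exact hE a b
      simp only [h5, Matrix.det_one, one_pow, mul_one]
    have hLG : ∀ γ : ℝ, LogGe 1 u F γ →
        LG w μ (fun _ : Fin 1 => x)
          ((∏ c, (aeval (lgen (k := k) x) (f c) : ↥(adjoin k {x})) ^ e c :
            ↥(adjoin k {x})) : L) (c0 * γ) := by
      intro γ hγ
      rw [← hFE]
      exact lg_of_log (line_trdeg hX) hn (line_ess hX) hw hu F hFp hγ
        (fun _ => lgen (k := k) x) (line_basis hX) E hE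
    rcases (Pool.Agent.K1H69.LP.t_PLC k ↥(adjoin k {x}) (lgen (k := k) x) hX).1 u with
      ⟨a, ha⟩ | hinf
    · have h5 := hfrm.1 u a ha
      rw [← hF] at h5
      have h6 := hLG _ h5
      have h7 : ∀ c, (pdiv (lgen (k := k) x) hX.tr (f c) (hf c)).ev (fun y => w.ord (y : L)) =
          ((c0 * (f c).rootMultiplicity a : ℕ) : ℤ) := by
        intro c
        rw [hev, (Pool.Agent.K1H69.LP.t_MUL k ↥(adjoin k {x}) (lgen (k := k) x) hX (f c) (hf c)
          u).1 a ha]
        push_cast
        rfl
      by_cases hroot : ∃ c, (f c).IsRoot a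
      · obtain ⟨c1, hc1⟩ := hroot
        have h8 := mult_eq hsq hf hc1
        refine ⟨_, fun c => c0 * (f c).rootMultiplicity a, h7, ?_, h6, ?_, ?_, ?_⟩
        · rcases (by omega : c1 = 0 ∨ c1 = 1) with rfl | rfl
          · right
            change c0 * (f 1).rootMultiplicity a = 0
            rw [h8, if_neg (by decide), mul_zero]
          · left
            change c0 * (f 0).rootMultiplicity a = 0
            rw [h8, if_neg (by decide), mul_zero]
        · intro _ h9
          exfalso
          have h10 := congrFun h9 c1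
          simp only [h8, if_true, mul_one, Pi.zero_apply] at h10
          have := hu.1
          omega
        · intro h9
          exfalso
          have h10 := congrFun h9 c1
          simp only [h8, if_true, mul_one, Pi.zero_apply] at h10
          have := hu.1
          omega
        · apply le_of_eq
          have h9 : ∑ c, (e c : ℝ) * (f c).rootMultiplicity a = e c1 := by
            rw [Finset.sum_eq_single c1]
            · rw [h8, if_pos rfl]; simp
            · intro c _ hcc
              rw [h8, if_neg hcc]; simp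
            · intro h
              exact absurd (Finset.mem_univ _) h
          have h10 : ∑ c, (((c0 * (f c).rootMultiplicity a : ℕ)) : ℝ) * y c =
              c0 * y c1 := by
            rw [Finset.sum_eq_single c1]
            · rw [h8, if_pos rfl]; simp
            · intro c _ hcc
              rw [h8, if_neg hcc]; simp
            · intro h
              exact absurd (Finset.mem_univ _) h
          rw [h9, h10, he']
          ring
      · push Not at hroot
        have h8 : ∀ c, (f c).rootMultiplicity a = 0 := fun c =>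
          Polynomial.rootMultiplicity_eq_zero (hroot c)
        have h9 : ∑ c, (e c : ℝ) * (f c).rootMultiplicity a + μ = μ := by
          simp [h8]
        rw [h9] at h6
        refine ⟨_, 0, fun c => ?_, Or.inl rfl, h6, fun _ _ => ?_, fun _ => by positivity, ?_⟩
        · rw [h7, h8, mul_zero]
          rfl
        · nlinarith
        · simp only [Pi.zero_apply, Nat.cast_zero, zero_mul, Finset.sum_const_zero, mul_zero]
          positivity
    · have h5 := hfrm.2 u hinf
      rw [← hF] at h5
      have h6 := hLG _ h5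
      have h9 : -(∑ c, (e c : ℝ) * (f c).natDegree) - μ = μ := by
        have h10 : ∑ c, (e c : ℝ) * (f c).natDegree =
            μ * (∑ c, ((f c).natDegree : ℝ) * y c) -
            μ * ∑ c, ((f c).natDegree : ℝ) := by
          rw [Finset.mul_sum, Finset.mul_sum, ← Finset.sum_sub_distrib]
          refine Finset.sum_congr rfl fun c _ => ?_
          rw [he']
          ring
        rw [h10, hyd]
        ring
      rw [h9] at h6
      refine ⟨_, 0, fun c => ?_, Or.inl rfl, h6, fun _ _ => ?_, fun _ => by positivity, ?_⟩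
      · rw [hev, (Pool.Agent.K1H69.LP.t_MUL k ↥(adjoin k {x}) (lgen (k := k) x) hX (f c) (hf c)
          u).2 hinf, mul_zero]
        rfl
      · nlinarith
      · simp only [Pi.zero_apply, Nat.cast_zero, zero_mul, Finset.sum_const_zero, mul_zero]
        positivity
  · push Not at hcon
    have hev : ∀ c, (pdiv (lgen (k := k) x) hX.tr (f c) (hf c)).ev
        (fun y => w.ord (y : L)) = 0 := by
      intro c
      have := (pdiv (lgen (k := k) x) hX.tr (f c) (hf c)).ev_scale
        (o := fun y => w.ord (y : L)) (o' := fun _ => 0) le_rfl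
        (fun y => by rw [mul_zero]; exact hcon y)
      rwa [zero_mul] at this
    refine ⟨0, 0, fun c => by rw [hev]; rfl, Or.inl rfl,
      lg_triv (M := adjoin k {x}) (fun f => hcon f) (fun _ => lgen (k := k) x) _, fun h => ?_,
      fun _ => le_rfl, by simp⟩
    obtain ⟨f, hf⟩ := h
    exact absurd (hcon f) hf

/-- Points of the polytope have positive coordinates. -/
theorem poly_pos {r s : ℕ} {A : Fin s → Fin r → Fin 2 → ℤ} {m : Fin s → ℕ}
    (hm : ∀ j, 0 < m j) {d : Fin r → Fin 2 → ℕ} {y : Fin r → Fin 2 → ℚ}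
    (hy : y ∈ Polytope A m d) (i : Fin r) (c : Fin 2) : 0 < y i c := by
  classical
  have hN : 0 < ∏ j, m j := Finset.prod_pos fun j _ => hm j
  have h1 := hy.2 (fun i' c' => if i' = i ∧ c' = c then ∏ j, m j else 0) ⟨?_, ?_, ?_⟩
  · rw [Finset.sum_eq_single i, Finset.sum_eq_single c] at h1
    · rw [if_pos ⟨rfl, rfl⟩] at h1
      have h2 : (0 : ℚ) < ((∏ j, m j : ℕ) : ℚ) := by exact_mod_cast hN
      by_contra h
      push Not at h
      nlinarith
    · intro c' _ hc'
      rw [if_neg (fun h => hc' h.2)]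
      simp
    · intro h
      exact absurd (Finset.mem_univ _) h
    · intro i' _ hi'
      refine Finset.sum_eq_zero fun c' _ => ?_
      rw [if_neg (fun h => hi' h.1)]
      simp
    · intro h
      exact absurd (Finset.mem_univ _) h
  · intro h0
    have h2 := congrFun (congrFun h0 i) c
    simp only [and_self, if_true, Pi.zero_apply] at h2
    omega
  · intro i'
    rcases (by omega : c = 0 ∨ c = 1) with rfl | rfl
    · right
      exact if_neg (fun h => absurd h.2 (by decide))
    · left
      exact if_neg (fun h => absurd h.2 (by decide))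
  · intro j
    refine Finset.dvd_sum fun i' _ => Finset.dvd_sum fun c' _ => ?_
    dsimp only
    split_ifs
    · refine Dvd.dvd.mul_left ?_ _
      exact_mod_cast Finset.dvd_prod_of_mem m (Finset.mem_univ j)
    · simp

end

/-- **The lower bound.** -/
theorem t_LOW (hI : S_INW) : S_LOW := by
  classical
  intro k L _ _ _ _ _ M r s w0 e x f A m τ z hc hM hess hK hne
  obtain ⟨m0, hm0, ω, hω, D1, hD1, hDi⟩ := hK
  obtain ⟨y0, hy0⟩ := Pool.Agent.W636.PG.exists_basis k M w0 hM
  obtain ⟨E, hE⟩ := Pool.Agent.W636.PG.exists_duals k M w0 y0 hy0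
  have hωp : ∀ l, IsPluriForm k M w0 m0 (ω l) := fun l => (hω l).1
  have hωreg : ∀ l (v : Place k M), IsDivisorial v w0 → RegularAt v w0 (ω l) := by
    intro l v hv D hD
    rcases (hω l).2.1 v hv (fun h => h) D hD with h1 | ⟨t, ht, ht0, h1⟩
    · exact Or.inl h1
    · rw [Finset.mem_singleton] at ht
      subst ht
      rw [v.ord_one, mul_zero] at h1
      exact Or.inr h1
  have hform : ∀ l, ω l D1 = (Matrix.of fun i j => D1 i (y0 j)).det ^ m0 * ω l E := fun l =>
    Pool.Agent.W636.PG.form_eq k M w0 m0 y0 hy0 E hE (ω l) (hωp l) D1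
  have hωE : ∀ l, ω l E ≠ 0 := by
    intro l h0
    apply hD1 l
    rw [hform, h0, mul_zero]
  have hdet : (Matrix.of fun i j => D1 i (y0 j)).det ^ m0 ≠ 0 := by
    intro h0
    apply hD1 0
    rw [hform, h0, zero_mul]
  have hindM : AlgebraicIndependent k (fun l : Fin e => ω l.succ E / ω 0 E) := by
    have h1 : (fun l : Fin e => ω l.succ D1 / ω 0 D1) =
        fun l : Fin e => ω l.succ E / ω 0 E := by
      funext l
      rw [hform, hform, mul_div_mul_left _ _ hdet]
    rwa [h1] at hDi
  obtain ⟨p, hp⟩ : ∃ p, p = affDim (Polytope A m fun i c => (f i c).natDegree) := ⟨_, rfl⟩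
  rw [← hp]
  obtain ⟨y, hyP, hyi⟩ := exists_pts hne (h := p) hp.symm
  have hfne := hc.f_ne
  have h4 : ∀ i c, ((aeval (lgen (k := k) (x i)) (f i c) : ↥(adjoin k {x i})) : L) =
      aeval (x i) (f i c) := fun i c =>
    (Polynomial.aeval_algHom_apply (adjoin k {x i}).val (lgen (k := k) (x i)) (f i c)).symm
  have h40 : ∀ i c, (aeval (lgen (k := k) (x i)) (f i c) : ↥(adjoin k {x i})) ≠ 0 := fun i c h => by
    have h5 := h4 i c
    rw [h] at h5
    exact hc.aev_ne i c h5.symm
  -- a common denominator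
  obtain ⟨N, hN1, ζ, hζ⟩ : ∃ N : ℕ, 1 ≤ N ∧ ∃ ζ : Fin (p + 1) → Fin r → Fin 2 → ℤ,
      ∀ l i c, (ζ l i c : ℚ) = N * y l i c := by
    refine ⟨∏ l, ∏ i, ∏ c, (y l i c).den, ?_, ?_⟩
    · exact Nat.one_le_iff_ne_zero.2 (Finset.prod_ne_zero_iff.2 fun l _ =>
        Finset.prod_ne_zero_iff.2 fun i _ => Finset.prod_ne_zero_iff.2 fun c _ => (y l i c).den_nz)
    · have h1 : ∀ l i c, ∃ z : ℤ, (z : ℚ) = (∏ l, ∏ i, ∏ c, (y l i c).den : ℕ) * y l i c := by
        intro l i c
        obtain ⟨q, hq⟩ : (y l i c).den ∣ ∏ l, ∏ i, ∏ c, (y l i c).den :=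
          (Finset.dvd_prod_of_mem (fun c => (y l i c).den) (Finset.mem_univ c)).trans
            ((Finset.dvd_prod_of_mem (fun i => ∏ c, (y l i c).den) (Finset.mem_univ i)).trans
              (Finset.dvd_prod_of_mem (fun l => ∏ i, ∏ c, (y l i c).den) (Finset.mem_univ l)))
        refine ⟨q * (y l i c).num, ?_⟩
        rw [hq]
        push_cast
        have h2 : ((y l i c).den : ℚ) * y l i c = (y l i c).num := by
          rw [mul_comm]
          exact_mod_cast Rat.mul_den_eq_num (y l i c)
        rw [mul_comm ((y l i c).den : ℚ), mul_assoc, h2]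
      choose z' hz' using h1
      exact ⟨z', fun l i c => hz' l i c⟩
  obtain ⟨μ, hμ⟩ : ∃ μ : ℕ, μ = m0 * N := ⟨_, rfl⟩
  have hμ1 : 1 ≤ μ := by
    rw [hμ]
    exact Nat.one_le_iff_ne_zero.2 (Nat.mul_ne_zero (by omega) (by omega))
  obtain ⟨ex, hex⟩ : ∃ ex : Fin (p + 1) → Fin r → Fin 2 → ℤ,
      ∀ l i c, ex l i c = m0 * ζ l i c - μ := ⟨_, fun _ _ _ => rfl⟩
  have he : ∀ l i c, (ex l i c : ℚ) = μ * y l i c - μ := by
    intro l i c
    rw [hex, hμ]
    push_cast
    rw [hζ]
    ring
  have he' : ∀ l i c, (ex l i c : ℝ) = μ * (y l i c : ℝ) - μ := fun l i c => by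
    exact_mod_cast congrArg (fun q : ℚ => (q : ℝ)) (he l i c)
  have hyd : ∀ l i, ∑ c, ((f i c).natDegree : ℝ) * (y l i c : ℝ) =
      ∑ c, ((f i c).natDegree : ℝ) - 2 := by
    intro l i
    have h5 := (hyP l).1 i
    have h6 := congrArg (fun q : ℚ => (q : ℝ)) h5
    push_cast at h6
    exact h6
  -- the factors of the lines
  obtain ⟨gl, hgl⟩ : ∃ gl : ∀ i : Fin r, Fin (p + 1) → ↥(adjoin k {x i}), ∀ i l, gl i l =
      ∏ c, (aeval (lgen (k := k) (x i)) (f i c) : ↥(adjoin k {x i})) ^ ex l i c :=
    ⟨_, fun i l => rfl⟩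
  have hg0 : ∀ i l, gl i l ≠ 0 := fun i l => by
    rw [hgl]
    exact Finset.prod_ne_zero_iff.2 fun c _ => zpow_ne_zero _ (h40 i c)
  have hgL : ∀ i l, ((gl i l : ↥(adjoin k {x i})) : L) = ∏ c, aeval (x i) (f i c) ^ ex l i c := by
    intro i l
    rw [hgl]
    have h5 : ((∏ c, (aeval (lgen (k := k) (x i)) (f i c) : ↥(adjoin k {x i})) ^ ex l i c :
        ↥(adjoin k {x i})) : L) =
        ∏ c, (((aeval (lgen (k := k) (x i)) (f i c) : ↥(adjoin k {x i})) ^ ex l i c :
          ↥(adjoin k {x i})) : L) :=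
      map_prod (algebraMap ↥(adjoin k {x i}) L)
        (fun c => (aeval (lgen (k := k) (x i)) (f i c) : ↥(adjoin k {x i})) ^ ex l i c)
        Finset.univ
    rw [h5]
    refine Finset.prod_congr rfl fun c _ => ?_
    rw [← h4]
    exact map_zpow₀ (algebraMap ↥(adjoin k {x i}) L) _ _
  have hgL0 : ∀ i l, ((gl i l : ↥(adjoin k {x i})) : L) ≠ 0 := fun i l h => by
    rw [hgL] at h
    exact Finset.prod_ne_zero_iff.2 (fun c _ => zpow_ne_zero _ (hc.aev_ne i c)) h
  -- the indices
  obtain ⟨a, ha⟩ : ∃ a : Fin (e + p + 1) → Fin (e + 1),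
      ∀ l, a l = if h : (l : ℕ) < e + 1 then ⟨l, h⟩ else 0 := ⟨_, fun _ => rfl⟩
  obtain ⟨b, hb⟩ : ∃ b : Fin (e + p + 1) → Fin (p + 1),
      ∀ l, b l = ⟨(l : ℕ) - e, by have := l.2; omega⟩ := ⟨_, fun _ => rfl⟩
  have ha0 : a 0 = 0 := by
    rw [ha, dif_pos (by simp)]
    rfl
  have hb0 : b 0 = 0 := by
    rw [hb]
    apply Fin.ext
    simp
  have ha1 : ∀ l : Fin e, a (Fin.castAdd p l).succ = l.succ := by
    intro l
    have := l.2
    rw [ha, dif_pos (by rw [Fin.val_succ, Fin.val_castAdd]; omega)]
    apply Fin.ext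
    simp
  have hb1 : ∀ l : Fin e, b (Fin.castAdd p l).succ = 0 := by
    intro l
    have := l.2
    rw [hb]
    apply Fin.ext
    simp only [Fin.val_succ, Fin.val_castAdd, Fin.val_zero]
    omega
  have ha2 : ∀ l : Fin p, a (Fin.natAdd e l).succ = 0 := by
    intro l
    rw [ha, dif_neg (by rw [Fin.val_succ, Fin.val_natAdd]; omega)]
  have hb2 : ∀ l : Fin p, b (Fin.natAdd e l).succ = l.succ := by
    intro l
    rw [hb]
    apply Fin.ext
    simp only [Fin.val_succ, Fin.val_natAdd]
    omega
  have htot : Algebra.trdeg k L = (w0 + r : ℕ) := hc.total hM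
  have hs : ∑ i, (Fin.cons w0 (fun _ => 1) : Fin (r + 1) → ℕ) i = w0 + r := by
    rw [Fin.sum_univ_succ]
    simp
  have hmain := kod_lbJ (k := k) (L := L) (r := r + 1) (h := e + p)
    (a := Fin.cons w0 (fun _ => 1)) hμ1 (FF0 M x) hc.alg
    (by rw [hs]; exact htot) (hc.essL hess)
    (fun i => Fin.cases (motive := fun i => Fin ((Fin.cons w0 (fun _ => 1) : Fin (r + 1) → ℕ) i) →
      (FF0 M x i)) y0 (fun i _ => lgen (k := k) (x i)) i)
    (fun i => ?_)
    (fun i => Fin.cases (motive := fun i => Fin (e + p + 1) → (FF0 M x i))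
      (fun l => ω (a l) E ^ N) (fun i l => gl i (b l)) i)
    (fun i => ?_) ?_ ?_
  · rwa [hs] at hmain
  · refine Fin.cases ?_ (fun i => ?_) i
    · exact hy0
    · exact line_basis (line_of (hc.tr i))
  · refine Fin.cases ?_ (fun i => ?_) i
    · intro l
      exact pow_ne_zero _ (hωE _)
    · intro l
      exact hg0 i (b l)
  · -- independence
    have hprod : ∀ l : Fin (e + p + 1), (∏ i : Fin (r + 1),
        (((fun i => Fin.cases (motive := fun i => Fin (e + p + 1) → (FF0 M x i))
          (fun l => ω (a l) E ^ N) (fun i l => gl i (b l)) i) i l : FF0 M x i) : L)) =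
        ((ω (a l) E : M) : L) ^ N * ∏ i, ((gl i (b l) : ↥(adjoin k {x i})) : L) := by
      intro l
      rw [Fin.prod_univ_succ]
      rfl
    have h6 : (fun l : Fin (e + p) => (∏ i : Fin (r + 1),
        (((fun i => Fin.cases (motive := fun i => Fin (e + p + 1) → (FF0 M x i))
          (fun l => ω (a l) E ^ N) (fun i l => gl i (b l)) i) i l.succ : FF0 M x i) : L)) /
        (∏ i : Fin (r + 1),
        (((fun i => Fin.cases (motive := fun i => Fin (e + p + 1) → (FF0 M x i))
          (fun l => ω (a l) E ^ N) (fun i l => gl i (b l)) i) i 0 : FF0 M x i) : L))) =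
        fun l : Fin (e + p) => Fin.append
          (fun l1 : Fin e => ((ω l1.succ E / ω 0 E : M) : L) ^ N)
          (fun l2 : Fin p => ∏ i, ∏ c, aeval (x i) (f i c) ^ (ex l2.succ i c - ex 0 i c)) l := by
      funext l
      rw [hprod, hprod, ha0, hb0]
      refine Fin.addCases (fun l1 => ?_) (fun l2 => ?_) l
      · rw [Fin.append_left, ha1, hb1,
          mul_div_mul_right _ _ (Finset.prod_ne_zero_iff.2 fun i _ => hgL0 i 0), ← div_pow]
        rfl
      · have h7 : ((ω 0 E : M) : L) ≠ 0 := fun h => hωE 0 (Subtype.ext h)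
        rw [Fin.append_right, ha2, hb2, mul_div_mul_left _ _ (pow_ne_zero _ h7),
          ← Finset.prod_div_distrib]
        refine Finset.prod_congr rfl fun i _ => ?_
        rw [hgL, hgL, ← Finset.prod_div_distrib]
        refine Finset.prod_congr rfl fun c _ => ?_
        rw [zpow_sub₀ (hc.aev_ne i c)]
    have hindk : AlgebraicIndependent k x :=
      hc.indep.restrictScalars (algebraMap k M).injective
    have h5 := Pool.Agent.K1H65.LP.t_IND k L r p x f (fun l i c => ex l.succ i c - ex 0 i c)
      hindk hc.deg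
      (fun i => coprime_of_sq (hc.sqf i)) (fun l i => by
        have h6 := hyd l.succ i
        have h7 := hyd 0 i
        have h8 : ((∑ c, (ex l.succ i c - ex 0 i c) * ((f i c).natDegree : ℤ) : ℤ) : ℝ) = 0 := by
          push_cast
          have h9 : ∑ c, ((ex l.succ i c : ℝ) - ex 0 i c) * ((f i c).natDegree : ℝ) =
              μ * (∑ c, ((f i c).natDegree : ℝ) * (y l.succ i c : ℝ)) -
              μ * (∑ c, ((f i c).natDegree : ℝ) * (y 0 i c : ℝ)) := by
            rw [Finset.mul_sum, Finset.mul_sum, ← Finset.sum_sub_distrib]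
            refine Finset.sum_congr rfl fun c _ => ?_
            rw [he', he']
            ring
          rw [h9, h6, h7, sub_self]
        exact_mod_cast h8) (by
        rw [Fintype.linearIndependent_iff] at hyi ⊢
        intro b hb
        refine hyi b ?_
        have hμ0 : (μ : ℚ) ≠ 0 := by positivity
        have hb0 : ∀ i, ∑ l, b l * (y l.succ i 0 - y 0 i 0) = 0 := by
          intro i
          have h6 := congrFun hb i
          rw [Finset.sum_apply] at h6
          simp only [Pi.smul_apply, smul_eq_mul, Pi.zero_apply] at h6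
          push_cast at h6
          have h7 : (μ : ℚ) * ∑ l, b l * (y l.succ i 0 - y 0 i 0) = 0 := by
            rw [Finset.mul_sum, ← h6]
            refine Finset.sum_congr rfl fun l _ => ?_
            rw [he, he]
            ring
          exact (mul_eq_zero.1 h7).resolve_left hμ0
        funext i c
        rw [Finset.sum_apply, Finset.sum_apply]
        simp only [Pi.smul_apply, Pi.sub_apply, smul_eq_mul, Pi.zero_apply]
        rcases (by omega : c = 0 ∨ c = 1) with rfl | rfl
        · exact hb0 i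
        · have hd1 : ((f i 1).natDegree : ℚ) ≠ 0 := by
            have := hc.deg i 1
            positivity
          have h6 : ∀ l, ((f i 1).natDegree : ℚ) * (y l i 1) =
              ∑ c, ((f i c).natDegree : ℚ) - 2 - (f i 0).natDegree * y l i 0 := by
            intro l
            have h7 := (hyP l).1 i
            rw [Fin.sum_univ_two (f := fun c => ((f i c).natDegree : ℚ) * y l i c)] at h7
            linarith
          have h8 : ((f i 1).natDegree : ℚ) * ∑ l, b l * (y l.succ i 1 - y 0 i 1) =
              -((f i 0).natDegree : ℚ) * ∑ l, b l * (y l.succ i 0 - y 0 i 0) := by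
            rw [Finset.mul_sum, Finset.mul_sum]
            refine Finset.sum_congr rfl fun l _ => ?_
            have h9 := h6 l.succ
            have h10 := h6 0
            linear_combination b l * (h9 - h10)
          rw [hb0, mul_zero] at h8
          exact (mul_eq_zero.1 h8).resolve_left hd1)
    have h8 : AlgebraicIndependent k (fun l : Fin e => ((ω l.succ E / ω 0 E : M) : L)) :=
      hindM.map' (f := M.val) M.val.injective
    have h9 := hI k L M r p e x
      (fun l2 : Fin p => ∏ i, ∏ c, aeval (x i) (f i c) ^ (ex l2.succ i c - ex 0 i c))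
      (fun l1 : Fin e => ((ω l1.succ E / ω 0 E : M) : L) ^ N) hc.indep
      (fun l => prod_mem fun i _ => prod_mem fun c _ => zpow_mem
        ((IntermediateField.adjoin.mono k _ _ (by
          rintro _ rfl
          exact ⟨i, rfl⟩)) (aev_mem_line (x i) (f i c))) _)
      h5 (fun l => pow_mem (SetLike.coe_mem _) _) (pow_ind h8 (by omega))
    rw [← h6] at h9
    exact h9
  · intro w hw
    rw [hs] at hw
    by_cases htr : ∀ (i : Fin (r + 1)) (y : FF0 M x i), w.ord (y : L) = 0
    · exact Or.inl htr
    right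
    intro l
    obtain ⟨γ0, hγ0, hγ0', hγ0''⟩ := fac_reg (μ := μ) htot hM hess
      (F := fun D => ω (a l) D ^ N) (by rw [hμ]; exact pluri_pow' (hωp (a l)) N)
      (fun v hv => reg_pow' (hωreg (a l) v hv) N) y0 hy0 E hE hw
    choose γ d hd' hsup hLG hγ1 hγ2 hγ3 using fun i => fac_line2 htot (hc.tr i) (f i) (hfne i)
      (hc.sqf i) (ex (b l) i) (fun c => (y (b l) i c : ℝ)) (he' (b l) i) (hyd (b l) i) hw
    have hμ0 : (0 : ℝ) ≤ μ := Nat.cast_nonneg μ
    have hypos : ∀ i c, (0 : ℝ) ≤ (y (b l) i c : ℝ) := fun i c => by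
      exact_mod_cast (poly_pos hc.pos (hyP (b l)) i c).le
    have hγp : ∀ i, 0 ≤ γ i := fun i =>
      le_trans (mul_nonneg hμ0 (Finset.sum_nonneg fun c _ =>
        mul_nonneg (Nat.cast_nonneg _) (hypos i c))) (hγ3 i)
    refine ⟨Fin.cons γ0 γ, ?_, fun i => ?_⟩
    · rw [Fin.sum_univ_succ]
      simp only [Fin.cons_zero, Fin.cons_succ]
      by_cases hW : ∃ y : M, w.ord (y : L) ≠ 0
      · have h1 := hγ0'' hW
        have h2 : 0 ≤ ∑ i, γ i := Finset.sum_nonneg fun i _ => hγp i
        linarith
      · push Not at hW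
        by_cases hall : d = 0
        · have h1 : ∃ i, ∃ y : ↥(adjoin k {x i}), w.ord (y : L) ≠ 0 := by
            by_contra hcon
            push Not at hcon
            apply htr
            intro i
            refine Fin.cases ?_ (fun i => ?_) i
            · exact hW
            · exact hcon i
          obtain ⟨i0, hi0⟩ := h1
          have h2 := hγ1 i0 hi0 (congrFun hall i0)
          have h3 : γ i0 ≤ ∑ i, γ i :=
            Finset.single_le_sum (f := γ) (fun i _ => hγp i) (Finset.mem_univ i0)
          linarith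
        · have hadm : Pool.Agent.K1H17.LP.Adm A m d := by
            refine ⟨hall, hsup, fun j => ?_⟩
            have h1 := hc.dvd_place w j
            have h0 : w.ord (τ j) = 0 := hW ⟨τ j, hc.mem j⟩
            rw [h0, zero_add] at h1
            have h2 : ∑ i, ∑ c, A j i c * hc.mlt w i c = ∑ i, ∑ c, A j i c * (d i c : ℤ) :=
              Finset.sum_congr rfl fun i _ => Finset.sum_congr rfl fun c _ => by
                rw [← hd' i c]
                rfl
            rwa [h2] at h1
          have h1 := (hyP (b l)).2 d hadm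
          have h2 : (1 : ℝ) ≤ ∑ i, ∑ c, (d i c : ℝ) * (y (b l) i c : ℝ) := by
            have h3 : ((1 : ℚ) : ℝ) ≤ ((∑ i, ∑ c, (d i c : ℚ) * y (b l) i c : ℚ) : ℝ) := by
              exact_mod_cast h1
            push_cast at h3
            exact h3
          have h3 : (μ : ℝ) ≤ ∑ i, γ i := by
            calc (μ : ℝ) = μ * 1 := (mul_one _).symm
              _ ≤ μ * ∑ i, ∑ c, (d i c : ℝ) * (y (b l) i c : ℝ) :=
                mul_le_mul_of_nonneg_left h2 hμ0
              _ = ∑ i, μ * ∑ c, (d i c : ℝ) * (y (b l) i c : ℝ) := by rw [Finset.mul_sum]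
              _ ≤ ∑ i, γ i := Finset.sum_le_sum fun i _ => hγ3 i
          linarith
    · refine Fin.cases ?_ (fun i => ?_) i
      · exact hγ0
      · have h1 := hLG i
        rw [← hgl] at h1
        exact h1

end Pool.Agent.K1H24.LW
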